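import Pool.Agent.Lib.Helper49.KKCard

/-!
# Continuous images of closed sets are `κ`-compact
-/

set_option autoImplicit false

universe u

namespace Pool.Agent.Helper43.KK

open Cardinal Set

variable {κ : Cardinal.{u}}

/-- a point of an open set has a box in the open set -/
lemma exists_box (hκ : ℵ₀ ≤ κ) {U : Set (Set (Idx κ))} (hU : (boundedTopology κ).IsOpen U) :
    ∀ x ∈ U, ∃ A : Set (Idx κ), #A < κ ∧ ∀ y : Set (Idx κ), y ∩ A = x ∩ A → y ∈ U := by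
  induction hU with
  | basic U hU =>
    obtain ⟨A, s, hA, rfl⟩ := hU
    intro x hx
    exact ⟨A, hA, fun y hy => hy.trans hx⟩
  | univ => exact fun x _ => ⟨∅, by rw [mk_eq_zero]; exact aleph0_pos.trans_le hκ,
      fun y _ => mem_univ _⟩
  | inter U V _ _ ih1 ih2 =>
    rintro x ⟨h1, h2⟩
    obtain ⟨A, hA, hA'⟩ := ih1 x h1
    obtain ⟨B, hB, hB'⟩ := ih2 x h2
    refine ⟨A ∪ B, (mk_union_le A B).trans_lt (add_lt_of_lt hκ hA hB), fun y hy => ?_⟩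
    have key : ∀ C ⊆ A ∪ B, y ∩ C = x ∩ C := by
      intro C hC
      have e : ∀ z : Set (Idx κ), z ∩ C = z ∩ (A ∪ B) ∩ C := fun z => by
        rw [inter_assoc, inter_eq_right.2 hC]
      rw [e y, e x, hy]
    exact ⟨hA' y (key A subset_union_left), hB' y (key B subset_union_right)⟩
  | sUnion S _ ih =>
    rintro x ⟨U, hU, hx⟩
    obtain ⟨A, hA, hA'⟩ := ih U hU x hx
    exact ⟨A, hA, fun y hy => ⟨U, hU, hA' y hy⟩⟩

/-- images of closed sets under continuous maps are `κ`-compact -/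
theorem image_kappaCompact (hκ : IsWeaklyCompact κ) {I : Type u} (hI : #I ≤ κ)
    (D : Set (Set I))
    (hD : ∀ g : Set I, (∀ B : Set I, #B < κ → ∃ g' ∈ D, g' ∩ B = g ∩ B) → g ∈ D)
    (F : Set I → Set (Idx κ))
    (hF : ∀ g ∈ D, ∀ A : Set (Idx κ), #A < κ →
      ∃ B : Set I, #B < κ ∧ ∀ g' ∈ D, g' ∩ B = g ∩ B → F g' ∩ A = F g ∩ A) :
    IsKappaCompact κ (F '' D) := by
  classical
  intro 𝒰 h𝒰 hcov
  obtain ⟨e⟩ : Nonempty (I ↪ Idx κ) := by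
    have : #I ≤ #(Idx κ) := by rw [mk_idx]; exact hI
    exact this
  -- for each point a box
  have hex : ∀ x : Set (Idx κ), ∃ B : Set I, #B < κ ∧
      ((∃ U ∈ 𝒰, ∀ g' ∈ D, g' ∩ B = (e ⁻¹' x) ∩ B → F g' ∈ U) ∨
        ∀ g' ∈ D, g' ∩ B ≠ (e ⁻¹' x) ∩ B) := by
    intro x
    by_cases hx : (e ⁻¹' x) ∈ D
    · obtain ⟨U, hU, hxU⟩ := hcov ⟨_, hx, rfl⟩
      obtain ⟨A, hA, hA'⟩ := exists_box hκ.aleph0_le (h𝒰 U hU) _ hxU
      obtain ⟨B, hB, hB'⟩ := hF _ hx A hA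
      exact ⟨B, hB, Or.inl ⟨U, hU, fun g' hg' h => hA' _ (hB' g' hg' h)⟩⟩
    · have h : ¬ ∀ B : Set I, #B < κ → ∃ g' ∈ D, g' ∩ B = (e ⁻¹' x) ∩ B :=
        fun h => hx (hD _ h)
      push Not at h
      obtain ⟨B, hB, hB'⟩ := h
      exact ⟨B, hB, Or.inr fun g' hg' => hB' g' hg'⟩
  choose B hB hB' using hex
  let W : Set (Idx κ) → Set (Set (Idx κ)) := fun x => {y | y ∩ (e '' B x) = x ∩ (e '' B x)}
  obtain ⟨𝒱, h𝒱, hc, hcov'⟩ := hκ.2 (range W) (by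
    rintro U ⟨s, rfl⟩
    exact isOpen_box _ _ (mk_image_le.trans_lt (hB s))) (fun x _ => ⟨W x, ⟨x, rfl⟩, rfl⟩)
  have hpt : ∀ V : 𝒱, ∃ x, W x = V.1 := fun V => h𝒱 V.2
  choose pt hpt using hpt
  let good : Set 𝒱 := {V | ∃ U ∈ 𝒰, ∀ g' ∈ D, g' ∩ B (pt V) = (e ⁻¹' (pt V)) ∩ B (pt V) → F g' ∈ U}
  have hsel : ∀ V : good, ∃ U ∈ 𝒰, ∀ g' ∈ D,
    g' ∩ B (pt V) = (e ⁻¹' (pt V)) ∩ B (pt V) → F g' ∈ U := fun V => V.2
  choose sel hsel1 hsel2 using hsel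
  refine ⟨range sel, ?_, ?_, ?_⟩
  · rintro U ⟨V, rfl⟩
    exact hsel1 V
  · exact mk_range_le.trans_lt ((mk_set_le good).trans_lt hc)
  · rintro _ ⟨g, hg, rfl⟩
    obtain ⟨V, hV, hgV⟩ := hcov' (mem_univ (e '' g))
    have h1 : e '' g ∈ W (pt ⟨V, hV⟩) := by rw [hpt]; exact hgV
    have h2 : (e '' g) ∩ (e '' B (pt ⟨V, hV⟩)) = pt ⟨V, hV⟩ ∩ (e '' B (pt ⟨V, hV⟩)) := h1
    have h3 : g ∩ B (pt ⟨V, hV⟩) = (e ⁻¹' (pt ⟨V, hV⟩)) ∩ B (pt ⟨V, hV⟩) := by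
      ext i
      have h4 : e i ∈ (e '' g) ∩ (e '' B (pt ⟨V, hV⟩)) ↔
          e i ∈ pt ⟨V, hV⟩ ∩ (e '' B (pt ⟨V, hV⟩)) := by rw [h2]
      simp only [mem_inter_iff, e.injective.mem_set_image] at h4
      exact h4
    rcases hB' (pt ⟨V, hV⟩) with h4 | h4
    · have hgood : (⟨V, hV⟩ : 𝒱) ∈ good := h4
      exact ⟨_, ⟨⟨⟨V, hV⟩, hgood⟩, rfl⟩, hsel2 ⟨⟨V, hV⟩, hgood⟩ g hg h3⟩
    · exact absurd h3 (h4 g hg)

end Pool.Agent.Helper43.KK
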