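import Pool.Agent.Lib.Helper43.KK.Constr

/-!
# Cardinality facts: weakly compact cardinals are regular strong limit cardinals
-/

set_option autoImplicit false

universe u

namespace Pool.Agent.Helper43.KK

open Cardinal Set

variable {κ : Cardinal.{u}}

lemma mk_Iio_idx (i : Idx κ) : #(Iio i) < κ := by
  simpa using mk_Iio_lt i

lemma mk_idx (κ : Cardinal.{u}) : #(Idx κ) = κ := by simp

lemma mk_Iic_idx (hκ : ℵ₀ ≤ κ) (i : Idx κ) : #(Iic i) < κ := by
  have h : Iic i = insert i (Iio i) := by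
    ext x
    simp only [mem_Iic, mem_insert_iff, mem_Iio]
    exact le_iff_eq_or_lt
  rw [h]
  exact (mk_insert_le).trans_lt (add_lt_of_lt hκ (mk_Iio_idx i) (one_lt_aleph0.trans_le hκ))

/-- the basic open sets -/
lemma isOpen_box (A s : Set (Idx κ)) (hA : #A < κ) :
    (boundedTopology κ).IsOpen {x | x ∩ A = s ∩ A} :=
  TopologicalSpace.GenerateOpen.basic _ ⟨A, s, hA, rfl⟩

theorem IsWeaklyCompact.aleph0_le (h : IsWeaklyCompact κ) : ℵ₀ ≤ κ := h.1.le

theorem IsWeaklyCompact.isStrongLimit (h : IsWeaklyCompact κ) : κ.IsStrongLimit := by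
  refine ⟨(aleph0_pos.trans h.1).ne', ?_⟩
  intro μ hμ
  obtain ⟨B, hB⟩ : ∃ B : Set (Idx κ), #B = μ := by
    have h1 : μ ≤ #(Idx κ) := by rw [mk_idx]; exact hμ.le
    exact le_mk_iff_exists_set.1 h1
  let box : Set (Idx κ) → Set (Set (Idx κ)) := fun s => {x | x ∩ B = s ∩ B}
  obtain ⟨𝒱, h𝒱, hc, hcov⟩ := h.2 (range box) (by
    rintro U ⟨s, rfl⟩
    exact isOpen_box B s (by rw [hB]; exact hμ)) (by
    intro x _
    exact ⟨box x, ⟨x, rfl⟩, rfl⟩)
  have hinj : ∀ s : Set B, box (Subtype.val '' s) ∈ 𝒱 := by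
    intro s
    obtain ⟨V, hV, hx⟩ := hcov (mem_univ (Subtype.val '' s))
    obtain ⟨t, rfl⟩ := h𝒱 hV
    have : box (Subtype.val '' s) = box t := by
      ext y
      have hx' : (Subtype.val '' s) ∩ B = t ∩ B := hx
      show y ∩ B = _ ∩ B ↔ y ∩ B = t ∩ B
      rw [hx']
    rw [this]
    exact hV
  have h2 : #(Set B) ≤ #𝒱 := by
    refine mk_le_of_injective (f := fun s => ⟨box (Subtype.val '' s), hinj s⟩) ?_
    intro s t hst
    have h3 : box (Subtype.val '' s) = box (Subtype.val '' t) := congrArg Subtype.val hst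
    have h4 : (Subtype.val '' s) ∈ box (Subtype.val '' t) := by rw [← h3]; rfl
    have h5 : (Subtype.val '' s) ∩ B = (Subtype.val '' t) ∩ B := h4
    have h6 : ∀ s : Set B, (Subtype.val '' s) ∩ B = Subtype.val '' s := fun s =>
      inter_eq_left.2 (by rintro _ ⟨x, _, rfl⟩; exact x.2)
    rw [h6, h6] at h5
    exact Subtype.val_injective.image_injective h5
  rw [mk_set, hB] at h2
  exact h2.trans_lt hc

lemma min_le_idx {s : Set (Idx κ)} (h : s.Nonempty) {x : Idx κ} (hx : x ∈ s) :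
    WellFounded.min (wellFounded_lt (α := Idx κ)) s h ≤ x :=
  not_lt.1 (WellFounded.not_lt_min (wellFounded_lt (α := Idx κ)) s hx)

theorem IsWeaklyCompact.isRegular (h : IsWeaklyCompact κ) : κ.IsRegular := by
  refine ⟨h.aleph0_le, ?_⟩
  by_contra hcof
  rw [not_le, ← Ordinal.cof_toType] at hcof
  obtain ⟨C, hC, hCc⟩ := Order.exists_cof_eq (Idx κ)
  have hCκ : #C < κ := by rw [hCc]; exact hcof
  classical
  -- the partition into boxes
  let lst : Set (Idx κ) → Set (Idx κ) := fun x =>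
    if hx : (x ∩ C).Nonempty then Iic (WellFounded.min (wellFounded_lt (α := Idx κ)) (x ∩ C) hx)
    else C
  let box : Set (Idx κ) → Set (Set (Idx κ)) := fun x => {y | y ∩ lst x = x ∩ lst x}
  have hlst : ∀ x, #(lst x) < κ := by
    intro x
    simp only [lst]
    split
    · exact mk_Iic_idx h.aleph0_le _
    · exact hCκ
  have hmem : ∀ x, x ∈ box x := fun x => rfl
  have hbox : ∀ x y, y ∈ box x → box y = box x := by
    intro x y hy
    have hy' : y ∩ lst x = x ∩ lst x := hy
    have hl : lst y = lst x := by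
      by_cases hx : (x ∩ C).Nonempty
      · have hlx : lst x = Iic (WellFounded.min (wellFounded_lt (α := Idx κ)) (x ∩ C) hx) :=
          dif_pos hx
        set m := WellFounded.min (wellFounded_lt (α := Idx κ)) (x ∩ C) hx with hm
        have hmx : m ∈ x ∩ C := WellFounded.min_mem _ _ _
        rw [hlx] at hy'
        have hmy : m ∈ y := by
          have : m ∈ x ∩ Iic m := ⟨hmx.1, mem_Iic.2 le_rfl⟩
          rw [← hy'] at this
          exact this.1
        have hyne : (y ∩ C).Nonempty := ⟨m, hmy, hmx.2⟩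
        have hly : lst y = Iic (WellFounded.min (wellFounded_lt (α := Idx κ)) (y ∩ C) hyne) :=
          dif_pos hyne
        rw [hly, hlx]
        congr 1
        refine le_antisymm (min_le_idx _ ⟨hmy, hmx.2⟩) ?_
        set m' := WellFounded.min (wellFounded_lt (α := Idx κ)) (y ∩ C) hyne with hm'
        have hmy' : m' ∈ y ∩ C := WellFounded.min_mem _ _ _
        have hle : m' ≤ m := min_le_idx _ ⟨hmy, hmx.2⟩
        have : m' ∈ y ∩ Iic m := ⟨hmy'.1, hle⟩
        rw [hy'] at this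
        exact min_le_idx _ ⟨this.1, hmy'.2⟩
      · have hlx : lst x = C := dif_neg hx
        rw [hlx] at hy'
        have hyne : ¬ (y ∩ C).Nonempty := by rw [hy']; exact hx
        have hly : lst y = C := dif_neg hyne
        rw [hlx, hly]
    ext z
    show z ∩ lst y = y ∩ lst y ↔ z ∩ lst x = x ∩ lst x
    rw [hl, hy']
  obtain ⟨𝒱, h𝒱, hc, hcov⟩ := h.2 (range box) (by
    rintro U ⟨s, rfl⟩
    exact isOpen_box _ _ (hlst s)) (fun x _ => ⟨box x, ⟨x, rfl⟩, rfl⟩)
  have hin : ∀ x, box x ∈ 𝒱 := by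
    intro x
    obtain ⟨V, hV, hx⟩ := hcov (mem_univ x)
    obtain ⟨t, rfl⟩ := h𝒱 hV
    rw [hbox t x hx]
    exact hV
  -- the points
  have hex : ∀ j : Idx κ, ∃ i ∈ C, j ≤ i := fun j => hC j
  choose g hg hjg using hex
  have hlt : ∀ j : (Cᶜ : Set (Idx κ)), j.1 < g j.1 := fun j =>
    lt_of_le_of_ne (hjg j.1) fun e => j.2 (by rw [e]; exact hg _)
  let pt : (Cᶜ : Set (Idx κ)) → Set (Idx κ) := fun j => {j.1, g j.1}
  have hpt : ∀ j, pt j ∩ C = {g j.1} := by
    intro j
    ext z
    simp only [pt, mem_inter_iff, mem_insert_iff, mem_singleton_iff]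
    constructor
    · rintro ⟨rfl | rfl, h2⟩
      · exact absurd h2 j.2
      · rfl
    · rintro rfl
      exact ⟨Or.inr rfl, hg _⟩
  have hlstpt : ∀ j, lst (pt j) = Iic (g j.1) := by
    intro j
    have hne : (pt j ∩ C).Nonempty := by rw [hpt]; exact singleton_nonempty _
    have h1 : lst (pt j) = Iic (WellFounded.min (wellFounded_lt (α := Idx κ)) (pt j ∩ C) hne) :=
      dif_pos hne
    rw [h1]
    congr 1
    have h2 := WellFounded.min_mem (wellFounded_lt (α := Idx κ)) (pt j ∩ C) hne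
    have h3 : WellFounded.min (wellFounded_lt (α := Idx κ)) (pt j ∩ C) hne ∈ ({g j.1} : Set _) := by
      rw [← hpt j]; exact h2
    exact h3
  have hinj : Function.Injective fun j => (⟨box (pt j), hin _⟩ : 𝒱) := by
    intro j j' hjj
    have h1 : box (pt j) = box (pt j') := congrArg Subtype.val hjj
    have h2 : pt j ∈ box (pt j') := by rw [← h1]; exact hmem _
    have h3 : pt j ∩ lst (pt j') = pt j' ∩ lst (pt j') := h2
    rw [hlstpt] at h3
    have h4 : j'.1 ∈ pt j' ∩ Iic (g j'.1) := ⟨Or.inl rfl, (hlt j').le⟩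
    rw [← h3] at h4
    rcases h4.1 with h5 | h5
    · exact Subtype.ext h5.symm
    · have h6 : j'.1 = g j.1 := h5
      exact absurd (by rw [h6]; exact hg _) j'.2
  have h1 : #(Cᶜ : Set (Idx κ)) ≤ #𝒱 := mk_le_of_injective hinj
  have h2 : κ ≤ #C + #(Cᶜ : Set (Idx κ)) := by
    rw [mk_sum_compl, mk_idx]
  have h3 := add_lt_of_lt h.aleph0_le hCκ (h1.trans_lt hc)
  exact absurd h2 (not_le.2 h3)

end Pool.Agent.Helper43.KK
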