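import Pool.Agent.Lib.Helper43.KK.Constr

/-!
# Definability in terms of the concrete syntax

`mem_defSubsets_iff`: the definable subsets of `A` are the ones defined by a formula `Fml` with
parameters.
-/

set_option autoImplicit false

universe u

namespace Pool.Agent.Helper43.KK

open FirstOrder FirstOrder.Language

/-! ### From first-order formulas to `Fml` -/

section toFml

variable {α : Type*}

/-- de Bruijn index of a variable -/
def varIdx (f : α → ℕ) (n : ℕ) : α ⊕ Fin n → ℕ
  | .inl a => n + f a
  | .inr i => n - 1 - i

/-- de Bruijn index of a term -/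
def termIdx (f : α → ℕ) (n : ℕ) : setLanguage.Term (α ⊕ Fin n) → ℕ
  | .var x => varIdx f n x
  | .func g _ => g.elim

/-- translation -/
def toFml (f : α → ℕ) : {n : ℕ} → setLanguage.BoundedFormula α n → Fml
  | _, .falsum => .ex (.and (.eq 0 0) (.neg (.eq 0 0)))
  | n, .equal s t => .eq (termIdx f n s) (termIdx f n t)
  | n, .rel (l := l) R ts => match l, R, ts with
    | _, MemSymbol.mem, ts => .mem (termIdx f n (ts 0)) (termIdx f n (ts 1))
  | _, .imp φ ψ => .neg (.and (toFml f φ) (.neg (toFml f ψ)))
  | _, .all φ => .neg (.ex (.neg (toFml f φ)))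

variable (A : Set ZFSet.{u})

/-- the list of the values of the bound variables, the most recent one first -/
def revList {n : ℕ} (xs : Fin n → A) : List ZFSet.{u} :=
  (List.ofFn fun i => (xs i : ZFSet.{u})).reverse

variable {A}

lemma length_revList {n : ℕ} (xs : Fin n → A) : (revList A xs).length = n := by
  simp [revList]

lemma revList_snoc {n : ℕ} (xs : Fin n → A) (a : A) :
    revList A (Fin.snoc xs a : Fin (n + 1) → A) = (a : ZFSet.{u}) :: revList A xs := by
  unfold revList
  rw [List.ofFn_succ']
  simp

lemma getElem?_revList {n : ℕ} (xs : Fin n → A) (i : Fin n) :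
    (revList A xs)[n - 1 - (i : ℕ)]? = some (xs i : ZFSet.{u}) := by
  unfold revList
  have hi := i.2
  rw [List.getElem?_reverse (by simp; omega)]
  have h : (List.ofFn fun i => (xs i : ZFSet.{u})).length - 1 - (n - 1 - (i : ℕ)) = i := by
    rw [List.length_ofFn]; omega
  rw [h, List.getElem?_ofFn]
  simp

lemma sat_termIdx {f : α → ℕ} {n : ℕ} (t : setLanguage.Term (α ⊕ Fin n)) {v : α → A}
    {xs : Fin n → A} {l : List ZFSet.{u}}
    (hl : ∀ a, l[f a]? = some (v a : ZFSet.{u})) :
    (revList A xs ++ l)[termIdx f n t]? = some ((t.realize (Sum.elim v xs) : A) : ZFSet.{u}) := by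
  cases t with
  | func g _ => exact g.elim
  | var x =>
    rcases x with a | i
    · simp only [termIdx, varIdx, Term.realize_var, Sum.elim_inl]
      rw [List.getElem?_append_right (by rw [length_revList]; omega), length_revList,
        Nat.add_sub_cancel_left]
      exact hl a
    · simp only [termIdx, varIdx, Term.realize_var, Sum.elim_inr]
      have hi := i.2
      rw [List.getElem?_append_left (by rw [length_revList]; omega)]
      exact getElem?_revList xs i

lemma sat_toFml {f : α → ℕ} {v : α → A} {l : List ZFSet.{u}}
    (hl : ∀ a, l[f a]? = some (v a : ZFSet.{u})) {n : ℕ}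
    (φ : setLanguage.BoundedFormula α n) (xs : Fin n → A) :
    (toFml f φ).Sat A (revList A xs ++ l) ↔ φ.Realize v xs := by
  induction φ with
  | falsum =>
    simp only [toFml, Fml.Sat, BoundedFormula.Realize, iff_false]
    rintro ⟨x, _, h, h'⟩
    exact h' h
  | @equal n s t =>
    have h1 := sat_termIdx (xs := xs) s hl
    have h2 := sat_termIdx (xs := xs) t hl
    simp only [toFml, Fml.Sat, BoundedFormula.Realize]
    rw [h1, h2]
    simp only [Option.some.injEq]
    constructor
    · rintro ⟨x, h, h'⟩
      exact Subtype.ext (h.trans h'.symm)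
    · intro h
      exact ⟨_, congrArg Subtype.val h, rfl⟩
  | @rel n l' R ts =>
    cases R with
    | mem =>
      have h1 := sat_termIdx (xs := xs) (ts 0) hl
      have h2 := sat_termIdx (xs := xs) (ts 1) hl
      simp only [toFml, Fml.Sat, BoundedFormula.Realize]
      rw [h1, h2]
      simp only [Option.some.injEq]
      constructor
      · rintro ⟨x, y, rfl, rfl, h⟩
        exact h
      · intro h
        exact ⟨_, _, rfl, rfl, h⟩
  | imp φ ψ ih1 ih2 =>
    simp only [toFml, Fml.Sat, BoundedFormula.Realize, ih1, ih2]
    tauto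
  | all φ ih =>
    simp only [toFml, Fml.Sat, BoundedFormula.Realize, not_exists, not_and, not_not]
    constructor
    · intro h a
      have := h a a.2
      rwa [← List.cons_append, ← revList_snoc, ih] at this
    · intro h a ha
      have := h ⟨a, ha⟩
      rw [← ih, revList_snoc] at this
      exact this

end toFml

/-! ### From `Fml` to first-order formulas -/

section ofFml

variable {α : Type*}

/-- the variable with a given index -/
def lookupVar (e : ℕ → Option α) (n i : ℕ) : Option (α ⊕ Fin n) :=
  if h : i < n then some (.inr ⟨n - 1 - i, by omega⟩) else (e (i - n)).map .inl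

/-- translation -/
def ofFml (e : ℕ → Option α) : (n : ℕ) → Fml → setLanguage.BoundedFormula α n
  | n, .mem i j => match lookupVar e n i, lookupVar e n j with
    | some a, some b => .rel MemSymbol.mem ![.var a, .var b]
    | _, _ => .falsum
  | n, .eq i j => match lookupVar e n i, lookupVar e n j with
    | some a, some b => .equal (.var a) (.var b)
    | _, _ => .falsum
  | n, .neg φ => .imp (ofFml e n φ) .falsum
  | n, .and φ ψ => .imp (.imp (ofFml e n φ) (.imp (ofFml e n ψ) .falsum)) .falsum
  | n, .ex φ => .imp (.all (.imp (ofFml e (n + 1) φ) .falsum)) .falsum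

variable {A : Set ZFSet.{u}}

lemma lookupVar_spec {e : ℕ → Option α} {v : α → A} {l : List ZFSet.{u}}
    (hl : ∀ i, l[i]? = (e i).map fun a => (v a : ZFSet.{u})) {n : ℕ} (xs : Fin n → A) (i : ℕ) :
    (revList A xs ++ l)[i]? =
      (lookupVar e n i).map fun a => ((Sum.elim v xs a : A) : ZFSet.{u}) := by
  unfold lookupVar
  split
  · rename_i h
    rw [List.getElem?_append_left (by rw [length_revList]; exact h)]
    have := getElem?_revList xs ⟨n - 1 - i, by omega⟩
    simp only at this
    rw [show n - 1 - (n - 1 - i) = i by omega] at this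
    rw [this]
    rfl
  · rename_i h
    rw [List.getElem?_append_right (by rw [length_revList]; omega), length_revList, hl,
      Option.map_map]
    rfl

lemma realize_ofFml {e : ℕ → Option α} {v : α → A} {l : List ZFSet.{u}}
    (hl : ∀ i, l[i]? = (e i).map fun a => (v a : ZFSet.{u})) (φ : Fml) : ∀ (n : ℕ)
    (xs : Fin n → A), (ofFml e n φ).Realize v xs ↔ φ.Sat A (revList A xs ++ l) := by
  induction φ with
  | mem i j =>
    intro n xs
    simp only [ofFml, Fml.Sat]
    rw [lookupVar_spec hl xs i, lookupVar_spec hl xs j]
    rcases lookupVar e n i with _ | a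
    · simp [BoundedFormula.Realize]
    · rcases lookupVar e n j with _ | b
      · simp [BoundedFormula.Realize]
      · simp only [BoundedFormula.Realize, Option.map_some, Option.some.injEq]
        constructor
        · intro h
          exact ⟨_, _, rfl, rfl, h⟩
        · rintro ⟨x, y, rfl, rfl, h⟩
          exact h
  | eq i j =>
    intro n xs
    simp only [ofFml, Fml.Sat]
    rw [lookupVar_spec hl xs i, lookupVar_spec hl xs j]
    rcases lookupVar e n i with _ | a
    · simp [BoundedFormula.Realize]
    · rcases lookupVar e n j with _ | b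
      · simp [BoundedFormula.Realize]
      · simp only [BoundedFormula.Realize, Option.map_some, Option.some.injEq]
        constructor
        · intro h
          exact ⟨_, congrArg Subtype.val h, rfl⟩
        · rintro ⟨x, h, h'⟩
          exact Subtype.ext (h.trans h'.symm)
  | neg φ ih =>
    intro n xs
    simp only [ofFml, Fml.Sat, BoundedFormula.Realize, ih]
  | and φ ψ ih1 ih2 =>
    intro n xs
    simp only [ofFml, Fml.Sat, BoundedFormula.Realize, ih1, ih2]
    tauto
  | ex φ ih =>
    intro n xs
    simp only [ofFml, Fml.Sat, BoundedFormula.Realize, ih, revList_snoc]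
    constructor
    · intro h
      by_contra h'
      push Not at h'
      exact h fun a ha => h' a a.2 ha
    · rintro ⟨a, ha, h⟩ h'
      exact h' ⟨a, ha⟩ h

end ofFml

/-- definable subsets in terms of the concrete syntax -/
theorem mem_defSubsets_iff (A : Set ZFSet.{u}) (x : ZFSet.{u}) : x ∈ DefSubsets A ↔
    (∀ y ∈ x, y ∈ A) ∧ ∃ (φ : Fml) (p : List ZFSet.{u}), (∀ a ∈ p, a ∈ A) ∧
      ∀ y ∈ A, (y ∈ x ↔ φ.Sat A (y :: p)) := by
  refine and_congr_right fun _ => ?_
  constructor
  · intro h
    unfold Set.Definable₁ at h
    rw [Set.definable_iff_finitely_definable] at h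
    obtain ⟨A0, _, h⟩ := h
    rw [Set.definable_iff_exists_formula_sum] at h
    obtain ⟨φ, hφ⟩ := h
    classical
    let p : List ZFSet.{u} := A0.toList.map fun a : A => (a : ZFSet.{u})
    let f : (A0 : Set A) ⊕ Fin 1 → ℕ := Sum.elim (fun a => A0.toList.idxOf a.1 + 1) fun _ => 0
    refine ⟨toFml f φ, p, ?_, ?_⟩
    · intro a ha
      obtain ⟨b, _, rfl⟩ := List.mem_map.1 ha
      exact b.2
    · intro y hy
      have hl : ∀ a : (A0 : Set A) ⊕ Fin 1, (y :: p)[f a]? =
          some ((Sum.elim (fun b : (A0 : Set A) => (b : A)) (fun _ => ⟨y, hy⟩) a : A) :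
            ZFSet.{u}) := by
        rintro (a | a)
        · simp only [f, Sum.elim_inl, List.getElem?_cons_succ, p, List.getElem?_map]
          have ha : a.1 ∈ A0.toList := Finset.mem_toList.2 a.2
          rw [List.getElem?_idxOf ha]
          rfl
        · rfl
      have h1 := sat_toFml hl φ (default : Fin 0 → A)
      have h2 : revList A (default : Fin 0 → A) = [] := by simp [revList]
      rw [h2, List.nil_append] at h1
      rw [h1]
      have h3 : ((fun _ : Fin 1 => (⟨y, hy⟩ : A)) ∈
          {z : Fin 1 → A | z 0 ∈ {a : A | (a : ZFSet.{u}) ∈ x}}) ↔ y ∈ x := Iff.rfl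
      rw [← h3, hφ]
      rfl
  · rintro ⟨φ, p, hp, h⟩
    unfold Set.Definable₁
    rw [Set.definable_iff_exists_formula_sum]
    classical
    let e : ℕ → Option ((Set.univ : Set A) ⊕ Fin 1) := fun i =>
      match i with
      | 0 => some (.inr 0)
      | i + 1 => if hi : i < p.length then
          some (.inl ⟨⟨p[i], hp _ (List.getElem_mem hi)⟩, trivial⟩) else none
    refine ⟨ofFml e 0 φ, ?_⟩
    ext z
    have hl : ∀ i, ((z 0 : ZFSet.{u}) :: p)[i]? = (e i).map fun a =>
        ((Sum.elim (fun b : (Set.univ : Set A) => (b : A)) z a : A) : ZFSet.{u}) := by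
      intro i
      cases i with
      | zero => rfl
      | succ i =>
        simp only [e, List.getElem?_cons_succ]
        split
        · rename_i hi
          rw [List.getElem?_eq_getElem hi]
          rfl
        · rename_i hi
          rw [List.getElem?_eq_none (by omega)]
          rfl
    have h1 := realize_ofFml hl φ 0 (default : Fin 0 → A)
    have h2 : revList A (default : Fin 0 → A) = [] := by simp [revList]
    rw [h2, List.nil_append] at h1
    have h3 := h (z 0) (z 0).2
    show (z 0 : ZFSet.{u}) ∈ x ↔ _
    rw [h3, ← h1]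
    rfl

end Pool.Agent.Helper43.KK
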