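import Pool.Agent.Lib.Helper49.KKCard

/-!
# Enumerations and small families are bounded
-/

set_option autoImplicit false

universe u

namespace Pool.Agent.Helper43.KK

open Cardinal Set Ordinal

variable {κ : Cardinal.{u}}

/-- the order type of a large set -/
theorem exists_orderIso {a : Set (Idx κ)} (ha : a ∈ Large κ) : Nonempty (Idx κ ≃o a) := by
  have h1 : typeLT (Idx κ) = typeLT a := by
    refine le_antisymm ?_ ?_
    · rw [type_toType, ord_le, card_type]
      exact (show #a = κ from ha).ge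
    · exact type_le_iff'.2 ⟨(OrderEmbedding.subtype (· ∈ a)).ltEmbedding⟩
  obtain ⟨e⟩ := type_eq.1 h1
  exact ⟨OrderIso.ofRelIsoLT e⟩

theorem exists_enumerates {a : Set (Idx κ)} (ha : a ∈ Large κ) :
    ∃ f : Idx κ → Idx κ, Enumerates f a := by
  obtain ⟨e⟩ := exists_orderIso ha
  refine ⟨fun i => (e i : Idx κ), fun i j h => e.strictMono h, ?_⟩
  ext x
  constructor
  · rintro ⟨i, rfl⟩
    exact (e i).2
  · intro hx
    exact ⟨e.symm ⟨x, hx⟩, by simp⟩

theorem Enumerates.unique {a : Set (Idx κ)} {f g : Idx κ → Idx κ} (hf : Enumerates f a)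
    (hg : Enumerates g a) : f = g :=
  (StrictMono.range_inj hf.1 hg.1).1 (hf.2.trans hg.2.symm)

theorem Enumerates.large {a : Set (Idx κ)} {f : Idx κ → Idx κ} (hf : Enumerates f a) :
    a ∈ Large κ := by
  show #a = κ
  rw [← hf.2, mk_range_eq f hf.1.injective, mk_idx]

/-- small sets are bounded -/
lemma exists_gt_of_mk_lt (hreg : κ.IsRegular) {S : Set (Idx κ)} (hS : #S < κ) :
    ∃ u, ∀ s ∈ S, s < u := by
  have h : ¬ IsCofinal S := by
    intro h
    have h1 := Order.cof_le h
    rw [Ordinal.cof_toType, hreg.cof_ord] at h1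
    exact absurd h1 (not_le.2 hS)
  unfold IsCofinal at h
  push Not at h
  obtain ⟨u, hu⟩ := h
  exact ⟨u, hu⟩

open Classical in
/-- a strict upper bound of a set, if there is one -/
noncomputable def pick [Nonempty (Idx κ)] (S : Set (Idx κ)) : Idx κ :=
  if h : ∃ u, ∀ s ∈ S, s < u then h.choose else Classical.arbitrary _

lemma pick_spec [Nonempty (Idx κ)] (hreg : κ.IsRegular) {S : Set (Idx κ)} (hS : #S < κ) :
    ∀ s ∈ S, s < pick S := by
  have h := exists_gt_of_mk_lt hreg hS
  rw [pick, dif_pos h]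
  exact h.choose_spec

/-- a function which eventually dominates `κ` many functions -/
theorem exists_dominating (hreg : κ.IsRegular) (f : Idx κ → Idx κ → Idx κ) :
    ∃ g : Idx κ → Idx κ, StrictMono g ∧ ∀ i j, i ≤ j → f i j < g j := by
  have hne : Nonempty (Idx κ) := by
    rw [← mk_ne_zero_iff, mk_idx]
    exact hreg.ne_zero
  let g : Idx κ → Idx κ := (wellFounded_lt (α := Idx κ)).fix fun j rec =>
    pick ((range fun i : Iic j => f i j) ∪ range fun i : Iio j => rec i.1 i.2)
  have hg : ∀ j, g j = pick ((range fun i : Iic j => f i j) ∪ range fun i : Iio j => g i.1) :=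
    fun j => WellFounded.fix_eq _ _ _
  have hc : ∀ j, #((range fun i : Iic j => f i j) ∪ range fun i : Iio j => g i.1 :
      Set (Idx κ)) < κ := fun j =>
    (mk_union_le _ _).trans_lt (add_lt_of_lt hreg.aleph0_le
      (mk_range_le.trans_lt (mk_Iic_idx hreg.aleph0_le j))
      (mk_range_le.trans_lt (mk_Iio_idx j)))
  refine ⟨g, fun i j hij => ?_, fun i j hij => ?_⟩
  · have := pick_spec hreg (hc j) (g i) (Or.inr ⟨⟨i, hij⟩, rfl⟩)
    rwa [← hg] at this
  · have := pick_spec hreg (hc j) (f i j) (Or.inl ⟨⟨i, hij⟩, rfl⟩)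
    rwa [← hg] at this

/-- small families are bounded -/
theorem bdd_of_card_le (hreg : κ.IsRegular) (A : Set (Set (Idx κ))) (hA : A ⊆ Large κ)
    (hc : #A ≤ κ) : Bdd A := by
  have hne : Nonempty (Idx κ) := by
    rw [← mk_ne_zero_iff, mk_idx]
    exact hreg.ne_zero
  rcases A.eq_empty_or_nonempty with rfl | hAne
  · refine ⟨univ, ?_, by simp⟩
    show #(univ : Set (Idx κ)) = κ
    rw [mk_univ, mk_idx]
  have : Nonempty A := hAne.to_subtype
  have h1 : #A ≤ #(Idx κ) := by rw [mk_idx]; exact hc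
  obtain ⟨e⟩ : Nonempty (A ↪ Idx κ) := h1
  have he : Function.Surjective (Function.invFun e) := Function.invFun_surjective e.injective
  have hex : ∀ i : Idx κ, ∃ f, Enumerates f (Function.invFun e i).1 := fun i =>
    exists_enumerates (hA (Function.invFun e i).2)
  choose f hf using hex
  obtain ⟨g, hg, hfg⟩ := exists_dominating hreg f
  have hgE : Enumerates g (range g) := ⟨hg, rfl⟩
  refine ⟨range g, hgE.large, ?_⟩
  intro a ha
  obtain ⟨i, hi⟩ := he ⟨a, ha⟩
  refine ⟨f i, g, ?_, hgE, ?_⟩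
  · have := hf i
    rwa [hi] at this
  · refine (mk_le_mk_of_subset ?_).trans_lt (mk_Iio_idx i)
    intro j hj
    rw [mem_Iio]
    by_contra h
    exact lt_asymm (hfg i j (not_lt.1 h)) hj

end Pool.Agent.Helper43.KK
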