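import Pool.Agent.Lib.Helper49.KKEnum
import Pool.Agent.Lib.Helper49.KKCompact

/-!
# Scales from ranks, and `K_κ` sets
-/

set_option autoImplicit false

universe u

namespace Pool.Agent.Helper43.KK

open Cardinal Set Ordinal

variable {κ : Cardinal.{u}}

theorem lt_bNumber_of_not_bdd (hreg : κ.IsRegular) {X : Set (Set (Idx κ))} (hX : X ⊆ Large κ)
    (hunb : ¬ Bdd X) : κ < bNumber κ := by
  have hne : {c | ∃ A ⊆ Large κ, ¬ Bdd A ∧ #A = c}.Nonempty := ⟨_, X, hX, hunb, rfl⟩
  obtain ⟨A, hA, hA', hA''⟩ := csInf_mem hne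
  rw [bNumber, ← hA'']
  by_contra h
  exact hA' (bdd_of_card_le hreg A hA (not_lt.1 h))

theorem isScale_of_rank (hreg : κ.IsRegular) (X : Set (Set (Idx κ))) (hX : X ⊆ Large κ)
    (hunb : ¬ Bdd X) (g : Set (Idx κ) → Ordinal.{u})
    (hg : ∀ x ∈ X, g x < (Order.succ κ).ord)
    (hfib : ∀ γ, #{x // x ∈ X ∧ g x = γ} ≤ κ)
    (hmono : ∀ x ∈ X, ∀ y ∈ X, g x ≤ g y → LeStar x y) : IsScale κ X := by
  refine ⟨hunb, ?_⟩
  have hκ0 : ℵ₀ ≤ κ := hreg.aleph0_le
  -- the fibres
  have hemb : ∀ γ, ∃ i : {x // x ∈ X ∧ g x = γ} → Idx κ, Function.Injective i := by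
    intro γ
    have : #{x // x ∈ X ∧ g x = γ} ≤ #(Idx κ) := by rw [mk_idx]; exact hfib γ
    obtain ⟨e⟩ := this
    exact ⟨e, e.injective⟩
  choose i hi using hemb
  let tp : Idx κ → Ordinal.{u} := fun j => typein (α := Idx κ) (· < ·) j
  have htp : ∀ j, tp j < κ.ord := fun j => by
    have := typein_lt_type (α := Idx κ) (· < ·) j
    rwa [type_toType] at this
  have htpi : Function.Injective tp := typein_injective _
  let h : X → Ordinal.{u} := fun x => κ.ord * g x + tp (i (g x) ⟨x, x.2, rfl⟩)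
  have hlt : ∀ x y : X, g x < g y → h x < h y := by
    intro x y hxy
    calc h x < κ.ord * g x + κ.ord := by
          exact (add_lt_add_iff_left _).2 (htp _)
      _ = κ.ord * (g x + 1) := by rw [mul_add_one]
      _ ≤ κ.ord * g y := mul_le_mul_right (Order.add_one_le_of_lt hxy) _
      _ ≤ h y := le_self_add
  have hinj : Function.Injective h := by
    intro x y hxy
    have hgg : g x = g y := by
      rcases lt_trichotomy (g x) (g y) with h1 | h1 | h1
      · exact absurd hxy (hlt x y h1).ne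
      · exact h1
      · exact absurd hxy (hlt y x h1).ne'
    have h2 : κ.ord * g x + tp (i (g x) ⟨x, x.2, rfl⟩) =
        κ.ord * g x + tp (i (g x) ⟨y, y.2, hgg.symm⟩) := by
      have h3 : h y = κ.ord * g x + tp (i (g x) ⟨y, y.2, hgg.symm⟩) := by
        simp only [h]
        congr 1
        · rw [hgg]
        · congr 1
          generalize_proofs p1 p2
          revert p1 p2
          rw [hgg]
          intros
          rfl
      rw [← h3, ← hxy]
    have h4 := add_left_cancel h2
    have h5 := hi _ (htpi h4)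
    have h6 : (x : Set (Idx κ)) = y := congrArg (fun z => z.1) h5
    exact Subtype.ext h6
  have hb : ∀ x, h x < (Order.succ κ).ord := by
    intro x
    rw [lt_ord, Order.lt_succ_iff]
    have h1 : (g x).card ≤ κ := by
      rw [← Order.lt_succ_iff, ← lt_ord]
      exact hg x x.2
    simp only [h, card_add, card_mul, card_ord]
    have h2 : (tp (i (g x) ⟨x, x.2, rfl⟩)).card ≤ κ := (lt_ord.1 (htp _)).le
    calc κ * (g x).card + (tp (i (g x) ⟨x, x.2, rfl⟩)).card ≤ κ * κ + κ :=
          add_le_add (mul_le_mul_right h1 κ) h2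
      _ = κ := by rw [mul_eq_self hκ0, add_eq_self hκ0]
  -- the well-order
  let r : X → X → Prop := fun x y => h x < h y
  have hwo : IsWellOrder X r := by
    have : r = Order.Preimage h (· < ·) := rfl
    rw [this]
    exact (RelEmbedding.preimage ⟨h, hinj⟩ (· < ·)).isWellOrder
  have htype : type r ≤ (Order.succ κ).ord := by
    have hemb2 : ∀ x : X, ∃ y : (Order.succ κ).ord.ToType,
        typein (α := (Order.succ κ).ord.ToType) (· < ·) y = h x := by
      intro x
      have h1 : h x < type ((· < ·) : (Order.succ κ).ord.ToType → _ → Prop) := by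
        rw [type_toType]; exact hb x
      exact typein_surj _ h1
    choose f hf using hemb2
    have hf' : ∀ x y, f x < f y ↔ r x y := by
      intro x y
      rw [← typein_lt_typein (r := ((· < ·) : (Order.succ κ).ord.ToType → _ → Prop)), hf, hf]
    have hfi : Function.Injective f := by
      intro x y hxy
      apply hinj
      rw [← hf, ← hf, hxy]
    have h2 := RelEmbedding.ordinal_type_le
      (r := r) (s := ((· < ·) : (Order.succ κ).ord.ToType → _ → Prop))
      ⟨⟨f, hfi⟩, fun {a b} => hf' a b⟩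
    rwa [type_toType] at h2
  have h1 : κ < bNumber κ := lt_bNumber_of_not_bdd hreg hX hunb
  have h2 : bNumber κ ≤ #X := csInf_le' ⟨X, hX, hunb, rfl⟩
  have h3 : #X ≤ Order.succ κ := by
    have := card_le_card htype
    rwa [card_type, card_ord] at this
  have h4 : Order.succ κ ≤ bNumber κ := Order.succ_le_of_lt h1
  have h5 : type r = (bNumber κ).ord := by
    have h6 : bNumber κ = Order.succ κ := le_antisymm (h2.trans h3) h4
    refine le_antisymm (h6 ▸ htype) ?_
    refine (ord_le_ord.2 h2).trans ?_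
    exact ord_le_type r
  have h6 : type ((· < ·) : (bNumber κ).ord.ToType → _ → Prop) = type r := by
    rw [type_toType, h5]
  obtain ⟨e⟩ := type_eq.1 h6
  refine ⟨fun α => (e α : Set (Idx κ)), fun α => hX (e α).2, ?_, ?_⟩
  · intro α β hαβ
    have h7 : r (e α) (e β) := e.map_rel_iff.2 hαβ
    refine hmono _ (e α).2 _ (e β).2 ?_
    by_contra hc
    rw [not_le] at hc
    exact absurd (hlt _ _ hc) (not_lt.2 h7.le)
  · ext x
    constructor
    · intro hx
      obtain ⟨α, hα⟩ := e.surjective ⟨x, hx⟩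
      exact ⟨α, congrArg Subtype.val hα⟩
    · rintro ⟨α, rfl⟩
      exact (e α).2

theorem isKKappa_of (hκ : IsWeaklyCompact κ) (Y : ℕ → Set (Set (Idx κ)))
    (hY : ∀ n, IsKappaCompact κ (Y n)) (X : Set (Set (Idx κ))) (hX : X ⊆ ⋃ n, Y n)
    (hY' : ∀ n, Y n ⊆ X ∪ FinKappa κ) : IsKKappa κ (X ∪ FinKappa κ) := by
  have hreg := hκ.isRegular
  have h1 : #(FinKappa κ) ≤ κ := by
    have h := mk_subset_mk_lt_cof (α := Idx κ) (by rw [mk_idx]; exact hκ.isStrongLimit.isStrongPrelimit)
    rw [mk_idx, hreg.cof_ord] at h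
    exact h.le
  have h2 : #(ℕ ⊕ FinKappa κ) ≤ #(Idx κ) := by
    rw [mk_idx, mk_sum]
    simp only [mk_nat, Cardinal.lift_id, Cardinal.lift_aleph0, Cardinal.lift_uzero]
    exact (add_le_add hκ.aleph0_le h1).trans (add_eq_self hκ.aleph0_le).le
  obtain ⟨e⟩ := h2
  have hne : Nonempty (ℕ ⊕ FinKappa κ) := ⟨.inl 0⟩
  let C : ℕ ⊕ FinKappa κ → Set (Set (Idx κ)) := Sum.elim Y fun a => {a.1}
  have hC : ∀ x, IsKappaCompact κ (C x) := by
    rintro (n | a)
    · exact hY n
    · intro 𝒰 _ hcov
      obtain ⟨U, hU, haU⟩ := hcov (mem_singleton a.1)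
      refine ⟨{U}, singleton_subset_iff.2 hU, ?_, ?_⟩
      · rw [mk_singleton]
        exact one_lt_aleph0.trans hκ.1
      · rintro x hx
        rw [show x = a.1 from hx]
        exact ⟨U, rfl, haU⟩
  refine ⟨fun i => C (Function.invFun e i), fun i => hC _, ?_⟩
  ext x
  rw [mem_iUnion]
  constructor
  · intro hx
    have : ∃ z, x ∈ C z := by
      rcases hx with hx | hx
      · obtain ⟨n, hn⟩ := mem_iUnion.1 (hX hx)
        exact ⟨.inl n, hn⟩
      · exact ⟨.inr ⟨x, hx⟩, rfl⟩
    obtain ⟨z, hz⟩ := this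
    obtain ⟨i, rfl⟩ := Function.invFun_surjective e.injective z
    exact ⟨i, hz⟩
  · rintro ⟨i, hx⟩
    rcases h : Function.invFun e i with n | a
    · rw [h] at hx
      exact hY' n hx
    · rw [h] at hx
      have : x = a.1 := hx
      rw [this]
      exact Or.inr a.2

end Pool.Agent.Helper43.KK
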